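import Pool.Agent.Helper99.AGU.Defs

set_option autoImplicit false

namespace Pool.Agent.Helper18.AGU

open Pool.Agent.Helper99.AGU Finset

lemma abel0 (v : ℕ → ℝ) (m : ℕ) :
    ∑ y ∈ range m, ((y : ℝ) + 1) * (v (y + 1) - v y) =
      ((m : ℝ) + 1) * v m - ∑ y ∈ range (m + 1), v y := by
  induction m with
  | zero => simp
  | succ m ih =>
    rw [sum_range_succ, ih, sum_range_succ _ (m + 1)]
    push_cast
    ring

lemma abel (p : ℕ) (v : ℕ → ℝ) (m : ℕ) (hm : p ≤ m) :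
    ∑ y ∈ range m, ((min (y + 1) (p + 1) : ℕ) : ℝ) / ((p + 1 : ℕ) : ℝ) * (v (y + 1) - v y) =
      v m - (1 / ((p + 1 : ℕ) : ℝ)) * ∑ y ∈ range (p + 1), v y := by
  induction m, hm using Nat.le_induction with
  | base =>
    have h1 : ∑ y ∈ range p, ((min (y + 1) (p + 1) : ℕ) : ℝ) / ((p + 1 : ℕ) : ℝ) *
        (v (y + 1) - v y) = (1 / ((p + 1 : ℕ) : ℝ)) *
        ∑ y ∈ range p, ((y : ℝ) + 1) * (v (y + 1) - v y) := by
      rw [mul_sum]
      refine sum_congr rfl fun y hy => ?_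
      have : y + 1 ≤ p + 1 := by have := mem_range.1 hy; omega
      rw [min_eq_left this]
      push_cast
      ring
    rw [h1, abel0]
    have : ((p + 1 : ℕ) : ℝ) ≠ 0 := by positivity
    push_cast at this ⊢
    field_simp
  | succ m hm ih =>
    rw [sum_range_succ, ih, min_eq_right (by omega)]
    have : ((p + 1 : ℕ) : ℝ) ≠ 0 := by positivity
    rw [div_self this]
    ring

/-- average of `w` over the first `hh n k` rows -/
noncomputable def av (n k : ℕ) (w : ℕ → ℝ) : ℝ := (1 / (hh n k : ℝ)) * ∑ y ∈ range (hh n k), w y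

lemma hh_pos (n k : ℕ) : 0 < hh n k := by unfold hh; omega

lemma hh_le (n k : ℕ) (hk : k < n) : hh n k ≤ n := by unfold hh; omega

lemma horpart (n k : ℕ) (hk : k < n) (v : ℕ → ℕ → ℝ) :
    ∑ y ∈ range n, hor n k y * (v (k + 1) y - v k y) = av n k (v (k + 1)) - av n k (v k) := by
  have h1 : ∑ y ∈ range n, hor n k y * (v (k + 1) y - v k y) =
      ∑ y ∈ range (hh n k), hor n k y * (v (k + 1) y - v k y) := by
    symm
    refine sum_subset (range_subset_range.2 (hh_le n k hk)) fun y _ hy => ?_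
    have : ¬ y < hh n k := by simpa using hy
    simp [hor, this]
  rw [h1, av, av, ← mul_sub, ← sum_sub_distrib, mul_sum]
  refine sum_congr rfl fun y hy => ?_
  have : y < hh n k := by simpa using hy
  simp [hor, this]

lemma verpart (n k : ℕ) (hk : k + 1 < n) (v : ℕ → ℝ) :
    ∑ y ∈ range (n - 1), ver n (k + 1) y * (v (y + 1) - v y) = av n (k + 1) v - av n k v := by
  have e : ∀ j, j < n → ∑ y ∈ range (n - 1), ((min (y + 1) (hh n j) : ℕ) : ℝ) / (hh n j : ℝ) *
      (v (y + 1) - v y) = v (n - 1) - av n j v := fun j hj =>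
    abel (min j (n - 1 - j)) v (n - 1) (by omega)
  have h1 := e k (by omega)
  have h2 := e (k + 1) hk
  have h3 : ∑ y ∈ range (n - 1), ver n (k + 1) y * (v (y + 1) - v y) =
      ∑ y ∈ range (n - 1), ((min (y + 1) (hh n k) : ℕ) : ℝ) / (hh n k : ℝ) * (v (y + 1) - v y) -
      ∑ y ∈ range (n - 1), ((min (y + 1) (hh n (k + 1)) : ℕ) : ℝ) / (hh n (k + 1) : ℝ) *
        (v (y + 1) - v y) := by
    rw [← sum_sub_distrib]
    refine sum_congr rfl fun y _ => ?_
    simp only [ver, Nat.add_eq_zero_iff, one_ne_zero, and_false, if_false, Nat.add_sub_cancel]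
    ring
  rw [h3, h1, h2]
  ring

lemma identity (n : ℕ) (hn : 1 ≤ n) (v : ℕ → ℕ → ℝ) : v n 0 - v 0 0 =
    (∑ k ∈ range n, ∑ y ∈ range n, hor n k y * (v (k + 1) y - v k y)) +
    ∑ k ∈ range n, ∑ y ∈ range (n - 1), ver n k y * (v k (y + 1) - v k y) := by
  obtain ⟨m, rfl⟩ : ∃ m, n = m + 1 := ⟨n - 1, by omega⟩
  have h1 : ∑ k ∈ range (m + 1), ∑ y ∈ range (m + 1), hor (m + 1) k y * (v (k + 1) y - v k y) =
      ∑ k ∈ range (m + 1), (av (m + 1) k (v (k + 1)) - av (m + 1) k (v k)) :=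
    sum_congr rfl fun k hk => horpart _ _ (mem_range.1 hk) v
  have h2 : ∑ k ∈ range (m + 1), ∑ y ∈ range (m + 1 - 1),
      ver (m + 1) k y * (v k (y + 1) - v k y) =
      ∑ k ∈ range m, (av (m + 1) (k + 1) (v (k + 1)) - av (m + 1) k (v (k + 1))) := by
    rw [sum_range_succ']
    have h0 : ∑ y ∈ range (m + 1 - 1), ver (m + 1) 0 y * (v 0 (y + 1) - v 0 y) = 0 :=
      sum_eq_zero fun y _ => by simp [ver]
    rw [h0, add_zero]
    exact sum_congr rfl fun k hk => verpart _ _ (by have := mem_range.1 hk; omega) (v (k + 1))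
  rw [h1, h2, sum_range_succ, sum_sub_distrib, sum_sub_distrib]
  have h3 : ∑ k ∈ range m, av (m + 1) (k + 1) (v (k + 1)) + av (m + 1) 0 (v 0) =
      ∑ k ∈ range m, av (m + 1) k (v k) + av (m + 1) m (v m) := by
    rw [← sum_range_succ (fun k => av (m + 1) k (v k)), sum_range_succ']
  have h4 : av (m + 1) 0 (v 0) = v 0 0 := by simp [av, hh]
  have h5 : av (m + 1) m (v (m + 1)) = v (m + 1) 0 := by simp [av, hh]
  rw [h5]
  linarith

lemma horsq (n k : ℕ) (hk : k < n) : ∑ y ∈ range n, hor n k y ^ 2 = 1 / (hh n k : ℝ) := by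
  have h1 : ∑ y ∈ range n, hor n k y ^ 2 = ∑ y ∈ range (hh n k), hor n k y ^ 2 := by
    symm
    refine sum_subset (range_subset_range.2 (hh_le n k hk)) fun y _ hy => ?_
    have : ¬ y < hh n k := by simpa using hy
    simp [hor, this]
  have h2 : ∑ y ∈ range (hh n k), hor n k y ^ 2 = ∑ y ∈ range (hh n k), (1 / (hh n k : ℝ)) ^ 2 := by
    refine sum_congr rfl fun y hy => ?_
    have : y < hh n k := by simpa using hy
    simp [hor, this]
  have h3 : (hh n k : ℝ) ≠ 0 := by exact_mod_cast (hh_pos n k).ne'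
  rw [h1, h2, sum_const, card_range, nsmul_eq_mul]
  field_simp

/-- the elementary estimate -/
lemma cc (y a : ℕ) :
    |((min (y + 1) (a + 1) : ℕ) : ℝ) / ((a + 1 : ℕ) : ℝ) -
      ((min (y + 1) (a + 2) : ℕ) : ℝ) / ((a + 2 : ℕ) : ℝ)| ≤
      if y + 1 < a + 2 then 1 / ((a + 2 : ℕ) : ℝ) else 0 := by
  split_ifs with h
  · rw [min_eq_left (by omega), min_eq_left (by omega)]
    have ha : (0 : ℝ) < ((a + 1 : ℕ) : ℝ) := by positivity
    have ha2 : (0 : ℝ) < ((a + 2 : ℕ) : ℝ) := by positivity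
    have e : ((y + 1 : ℕ) : ℝ) / ((a + 1 : ℕ) : ℝ) - ((y + 1 : ℕ) : ℝ) / ((a + 2 : ℕ) : ℝ) =
        ((y + 1 : ℕ) : ℝ) / ((a + 1 : ℕ) : ℝ) * (1 / ((a + 2 : ℕ) : ℝ)) := by
      field_simp
      push_cast
      ring
    rw [e, abs_of_nonneg (by positivity)]
    have : ((y + 1 : ℕ) : ℝ) / ((a + 1 : ℕ) : ℝ) ≤ 1 := by
      rw [div_le_one ha]
      exact_mod_cast (by omega : y + 1 ≤ a + 1)
    calc _ ≤ 1 * (1 / ((a + 2 : ℕ) : ℝ)) := by gcongr
      _ = _ := one_mul _
  · rw [min_eq_right (by omega), min_eq_right (by omega)]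
    have ha : ((a + 1 : ℕ) : ℝ) ≠ 0 := by positivity
    have ha2 : ((a + 2 : ℕ) : ℝ) ≠ 0 := by positivity
    rw [div_self ha, div_self ha2]
    simp

lemma cc' (y a b : ℕ) (h : b = a ∨ b = a + 1 ∨ a = b + 1) :
    |((min (y + 1) (a + 1) : ℕ) : ℝ) / ((a + 1 : ℕ) : ℝ) -
      ((min (y + 1) (b + 1) : ℕ) : ℝ) / ((b + 1 : ℕ) : ℝ)| ≤
      if y + 1 < max a b + 1 then 1 / ((max a b + 1 : ℕ) : ℝ) else 0 := by
  rcases h with rfl | rfl | rfl
  · simp only [sub_self, abs_zero]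
    split_ifs <;> positivity
  · have := cc y a
    rw [max_eq_right (by omega)]
    exact this
  · have := cc y b
    rw [max_eq_left (by omega), abs_sub_comm]
    exact this

lemma versq (n k : ℕ) (hk : k + 1 < n) :
    ∑ y ∈ range (n - 1), ver n (k + 1) y ^ 2 ≤ 1 / (hh n (k + 1) : ℝ) := by
  set a := min k (n - 1 - k) with ha
  set b := min (k + 1) (n - 1 - (k + 1)) with hb
  have hab : b = a ∨ b = a + 1 ∨ a = b + 1 := by omega
  set M := max a b + 1 with hM
  have h0 : ∀ y, ver n (k + 1) y ^ 2 ≤ if y + 1 < M then (1 / (M : ℝ)) ^ 2 else 0 := by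
    intro y
    have h1 := cc' y a b hab
    have h2 : ver n (k + 1) y = ((min (y + 1) (a + 1) : ℕ) : ℝ) / ((a + 1 : ℕ) : ℝ) -
      ((min (y + 1) (b + 1) : ℕ) : ℝ) / ((b + 1 : ℕ) : ℝ) := by
      simp only [ver, Nat.add_eq_zero_iff, one_ne_zero, and_false, if_false, Nat.add_sub_cancel, hh]
      rw [ha, hb]
    rw [← h2] at h1
    rw [← sq_abs]
    split_ifs at h1 ⊢ with h
    · exact pow_le_pow_left₀ (abs_nonneg _) h1 2
    · have := le_antisymm h1 (abs_nonneg _)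
      rw [this]
      norm_num
  have hMn : M ≤ n := by omega
  have hMp : (0 : ℝ) < (M : ℝ) := by positivity
  calc ∑ y ∈ range (n - 1), ver n (k + 1) y ^ 2
      ≤ ∑ y ∈ range (n - 1), if y + 1 < M then (1 / (M : ℝ)) ^ 2 else 0 :=
        sum_le_sum fun y _ => h0 y
    _ = ∑ y ∈ (range (n - 1)).filter (fun y => y + 1 < M), (1 / (M : ℝ)) ^ 2 := by
        rw [sum_filter]
    _ ≤ ∑ y ∈ range M, (1 / (M : ℝ)) ^ 2 := by
        refine sum_le_sum_of_subset_of_nonneg (fun y hy => ?_) fun _ _ _ => by positivity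
        simp only [mem_filter, mem_range] at hy ⊢
        omega
    _ = 1 / (M : ℝ) := by
        rw [sum_const, card_range, nsmul_eq_mul]
        field_simp
    _ ≤ 1 / (hh n (k + 1) : ℝ) := by
        have hpos : (0 : ℝ) < (hh n (k + 1) : ℝ) := by exact_mod_cast hh_pos n (k + 1)
        refine one_div_le_one_div_of_le hpos ?_
        have : hh n (k + 1) ≤ M := by
          unfold hh
          omega
        exact_mod_cast this

lemma sum_inv (n : ℕ) : ∑ k ∈ range n, 1 / (hh n k : ℝ) ≤ 2 * (1 + Real.log n) := by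
  have h1 : ∀ k ∈ range n, 1 / (hh n k : ℝ) ≤ 1 / ((k : ℝ) + 1) + 1 / (((n - 1 - k : ℕ) : ℝ) + 1) := by
    intro k _
    have hp1 : (0 : ℝ) ≤ 1 / ((k : ℝ) + 1) := by positivity
    have hp2 : (0 : ℝ) ≤ 1 / (((n - 1 - k : ℕ) : ℝ) + 1) := by positivity
    rcases le_total k (n - 1 - k) with h | h
    · have : hh n k = k + 1 := by unfold hh; rw [min_eq_left h]
      rw [this]
      push_cast
      linarith
    · have : hh n k = (n - 1 - k) + 1 := by unfold hh; rw [min_eq_right h]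
      rw [this]
      push_cast
      linarith
  have h2 : ∑ k ∈ range n, 1 / ((k : ℝ) + 1) ≤ 1 + Real.log n := by
    have := harmonic_le_one_add_log n
    have e : ((harmonic n : ℚ) : ℝ) = ∑ k ∈ range n, 1 / ((k : ℝ) + 1) := by
      simp [harmonic]
    rwa [e] at this
  have h3 : ∑ k ∈ range n, 1 / (((n - 1 - k : ℕ) : ℝ) + 1) = ∑ k ∈ range n, 1 / ((k : ℝ) + 1) :=
    sum_range_reflect (fun k => 1 / ((k : ℝ) + 1)) n
  calc _ ≤ ∑ k ∈ range n, (1 / ((k : ℝ) + 1) + 1 / (((n - 1 - k : ℕ) : ℝ) + 1)) := sum_le_sum h1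
    _ = ∑ k ∈ range n, 1 / ((k : ℝ) + 1) + ∑ k ∈ range n, 1 / (((n - 1 - k : ℕ) : ℝ) + 1) :=
        sum_add_distrib
    _ ≤ _ := by rw [h3]; linarith

/-- **The explicit unit flow.** -/
theorem flow : S_FLOW := by
  intro n hn
  refine ⟨fun v => identity n hn v, ?_⟩
  have h1 : ∑ k ∈ range n, ∑ y ∈ range n, hor n k y ^ 2 = ∑ k ∈ range n, 1 / (hh n k : ℝ) :=
    sum_congr rfl fun k hk => horsq n k (mem_range.1 hk)
  have h2 : ∑ k ∈ range n, ∑ y ∈ range (n - 1), ver n k y ^ 2 ≤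
      ∑ k ∈ range n, 1 / (hh n k : ℝ) := by
    refine sum_le_sum fun k hk => ?_
    rcases k with _ | k
    · have : ∑ y ∈ range (n - 1), ver n 0 y ^ 2 = 0 := sum_eq_zero fun y _ => by simp [ver]
      rw [this]
      positivity
    · exact versq n k (mem_range.1 hk)
  have h3 := sum_inv n
  linarith

end Pool.Agent.Helper18.AGU
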