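import Pool.Agent.Helper99.AGU.Defs
import Pool.Graph.R_seed8.TH369.AG.J9
import Pool.Graph.R_seed8.TH369.AG.J10

set_option autoImplicit false
set_option linter.unusedSectionVars false

namespace Pool.Agent.Helper18.AGU

open Pool.Agent.Helper99.AGU Pool.Agent.TH369.AG

section general

variable {V E : Type} [Fintype V] [DecidableEq V] [Fintype E] [DecidableEq E]

/-- embedding of the vertices in which `i` becomes the root -/
def emb (i : V) (x : V) : Option V := cl (some i) none (some x)

omit [Fintype V] in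
lemma emb_inj (i : V) : Function.Injective (emb i) := by
  intro x y h
  unfold emb cl at h
  simp only [Option.some.injEq] at h
  split_ifs at h with h1 h2 h2
  · rw [h1, h2]
  · exact Option.some_injective _ h

lemma not_Cn_none (s t : E → V) (A : Finset E) (i : V) :
    ¬ Cn (some ∘ s) (some ∘ t) A (some i) (none : Option V) := by
  intro h
  unfold Cn at h
  have hle : Submodule.span ℝ (vec (some ∘ s) (some ∘ t) '' (A : Set E)) ≤
      LinearMap.ker (LinearMap.proj (R := ℝ) (φ := fun _ : Option V => ℝ) none) := by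
    rw [Submodule.span_le]
    rintro _ ⟨e, _, rfl⟩
    rw [SetLike.mem_coe, LinearMap.mem_ker]
    simp [vec]
  have h2 := hle h
  rw [LinearMap.mem_ker] at h2
  simp at h2

/-- the partition function with `i` and `j` merged -/
lemma FS_two (s t : E → V) (w : E → ℝ) (S : Finset E) (i j : V) (hij : i ≠ j) :
    FS (cl (some j) none ∘ (cl (some i) none ∘ (some ∘ s)))
      (cl (some j) none ∘ (cl (some i) none ∘ (some ∘ t))) w S (fun _ => True) =
      FS s t w S (fun A => ¬ Cn s t A i j) := by
  rw [FS_merge _ _ w S (some j) none (by simp)]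
  unfold FS
  congr 1
  ext A
  simp only [Finset.mem_filter, and_true]
  have h1 : (cl (some i) none ∘ (some ∘ s)) = emb i ∘ s := rfl
  have h2 : (cl (some i) none ∘ (some ∘ t)) = emb i ∘ t := rfl
  rw [h1, h2, IsF_comp (emb i) (emb_inj i) s t A]
  have h3 : emb i j = some j := by simp [emb, cl, hij.symm]
  have h4 : emb i i = none := by simp [emb, cl]
  have h5 := Cn_comp (emb i) (emb_inj i) s t A j i
  rw [h3, h4] at h5
  rw [h5, J10.Cn_comm s t A j i]

lemma some_inj : Function.Injective (some : V → Option V) := Option.some_injective V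

end general

section torus

variable (β : ℝ) (hβ : 0 < β) (L : ℕ) [NeZero L]

/-- first end point -/
noncomputable def eS (e : Sym2 (Vtx L)) : Vtx L := (Quot.out e).1

/-- second end point -/
noncomputable def eT (e : Sym2 (Vtx L)) : Vtx L := (Quot.out e).2

omit [NeZero L] in
lemma hst (e : Sym2 (Vtx L)) : e = s(eS L e, eT L e) := (Quot.out_eq e).symm

open Classical in
/-- the edges of the torus -/
noncomputable def SS : Finset (Sym2 (Vtx L)) :=
  Finset.univ.filter (fun e : Sym2 (Vtx L) => e ∈ (torus L).edgeSet)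

lemma mem_SS (e : Sym2 (Vtx L)) : e ∈ SS L ↔ e ∈ (torus L).edgeSet := by simp [SS]

lemma wt_torus (x z : Vtx L) : wt (some ∘ eS L) (some ∘ eT L) (fun _ => β) (SS L) (some x)
    (some z) = if s(x, z) ∈ SS L then β else 0 := by
  classical
  rw [J10.wt_eq]
  have h1 : ∀ e : Sym2 (Vtx L), (((some ∘ eS L) e = some x ∧ (some ∘ eT L) e = some z) ∨
      ((some ∘ eS L) e = some z ∧ (some ∘ eT L) e = some x)) ↔ s(x, z) = e := by
    intro e
    simp only [Function.comp_apply, Option.some.injEq]
    conv_rhs => rw [hst L e]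
    rw [Sym2.eq_iff]
    constructor
    · rintro (⟨a, b⟩ | ⟨a, b⟩)
      · exact Or.inl ⟨a.symm, b.symm⟩
      · exact Or.inr ⟨b.symm, a.symm⟩
    · rintro (⟨a, b⟩ | ⟨a, b⟩)
      · exact Or.inl ⟨a.symm, b.symm⟩
      · exact Or.inr ⟨b.symm, a.symm⟩
  simp only [h1]
  rw [Finset.sum_ite_eq]

lemma TN_eq : TN β hβ L = netOf (some ∘ eS L) (some ∘ eT L) (fun _ => β) (fun _ => hβ.le)
    (SS L) := by
  classical
  apply J10.net_ext
  · intro x z
    rw [J10.netOf_B, wt_torus]
    show (if (torus L).Adj x z then β else 0) = _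
    have h : s(x, z) ∈ SS L ↔ (torus L).Adj x z := by
      rw [mem_SS, SimpleGraph.mem_edgeSet]
    by_cases hxz : x = z
    · subst hxz
      simp
    · rw [if_neg hxz]
      simp only [h]
  · intro x
    rw [J10.netOf_r]
    show (0 : ℝ) = _
    rw [J10.wt_eq]
    symm
    refine Finset.sum_eq_zero fun e _ => ?_
    simp

lemma Z_eq : Z β L = FS (eS L) (eT L) (fun _ => β) (SS L) (fun _ => True) := by
  classical
  unfold Z FS forests
  refine Finset.sum_congr ?_ fun F _ => by rw [Finset.prod_const]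
  ext F
  simp only [Finset.mem_filter, Finset.mem_univ, true_and, Finset.mem_powerset, and_true]
  have hsub : (F : Set (Sym2 (Vtx L))) ⊆ (torus L).edgeSet ↔ F ⊆ SS L :=
    ⟨fun h e he => (mem_SS L e).mpr (h he), fun h e he => (mem_SS L e).mp (h he)⟩
  rw [hsub]
  have hd : F ⊆ SS L → ∀ e ∈ F, ¬ e.IsDiag := fun hF e he =>
    (torus L).not_isDiag_of_mem_edgeSet ((mem_SS L e).mp (hF he))
  constructor
  · rintro ⟨h1, h2⟩
    exact ⟨h1, (acyclic_iff F (hd h1) _ _ (hst L)).mp h2⟩
  · rintro ⟨h1, h2⟩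
    exact ⟨h1, (acyclic_iff F (hd h1) _ _ (hst L)).mpr h2⟩

lemma conn_eq (i j : Vtx L) : conn β L i j =
    FS (eS L) (eT L) (fun _ => β) (SS L) (fun A => Cn (eS L) (eT L) A i j) / Z β L := by
  classical
  unfold conn
  congr 1
  unfold FS forests
  rw [Finset.filter_filter]
  refine Finset.sum_congr ?_ fun F _ => by rw [Finset.prod_const]
  ext F
  simp only [Finset.mem_filter, Finset.mem_univ, true_and, Finset.mem_powerset]
  have hsub : (F : Set (Sym2 (Vtx L))) ⊆ (torus L).edgeSet ↔ F ⊆ SS L :=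
    ⟨fun h e he => (mem_SS L e).mpr (h he), fun h e he => (mem_SS L e).mp (h he)⟩
  rw [hsub]
  have hd : F ⊆ SS L → ∀ e ∈ F, ¬ e.IsDiag := fun hF e he =>
    (torus L).not_isDiag_of_mem_edgeSet ((mem_SS L e).mp (hF he))
  constructor
  · rintro ⟨⟨h1, h2⟩, h3⟩
    exact ⟨h1, (acyclic_iff F (hd h1) _ _ (hst L)).mp h2,
      (reachable_iff F (hd h1) _ _ (hst L) i j).mp h3⟩
  · rintro ⟨h1, h2, h3⟩
    exact ⟨⟨h1, (acyclic_iff F (hd h1) _ _ (hst L)).mpr h2⟩,
      (reachable_iff F (hd h1) _ _ (hst L) i j).mpr h3⟩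

include hβ in
lemma Z_pos : 0 < Z β L := by
  classical
  unfold Z
  refine Finset.sum_pos (fun F _ => by positivity) ⟨∅, ?_⟩
  simp only [forests, Finset.mem_filter, Finset.mem_univ, true_and, Finset.coe_empty,
    Set.empty_subset]
  intro v c hc
  have := hc.three_le_length
  cases c with
  | nil => simp at this
  | cons h p => simp at h

include hβ in
lemma split (i j : Vtx L) :
    FS (eS L) (eT L) (fun _ => β) (SS L) (fun A => ¬ Cn (eS L) (eT L) A i j) =
      (1 - conn β L i j) * Z β L := by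
  classical
  have hZ := (Z_pos β hβ L).ne'
  rw [conn_eq, sub_mul, one_mul, div_mul_cancel₀ _ hZ, Z_eq]
  have : FS (eS L) (eT L) (fun _ => β) (SS L) (fun _ => True) =
      FS (eS L) (eT L) (fun _ => β) (SS L) (fun A => Cn (eS L) (eT L) A i j) +
      FS (eS L) (eT L) (fun _ => β) (SS L) (fun A => ¬ Cn (eS L) (eT L) A i j) := by
    unfold FS
    rw [Finset.sum_filter, Finset.sum_filter, Finset.sum_filter, ← Finset.sum_add_distrib]
    refine Finset.sum_congr rfl fun A _ => ?_
    by_cases h1 : IsF (eS L) (eT L) A <;> by_cases h2 : Cn (eS L) (eT L) A i j <;> simp [h1, h2]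
  linarith

end torus

/-- **The link between the integrals and the arboreal gas.** -/
theorem link : S_LINK := by
  intro β hβ L _
  classical
  have hpi : (0 : ℝ) < Real.sqrt (2 * Real.pi) ^ Fintype.card (Vtx L) := by positivity
  have h1 : IA (TN β hβ L) (fun _ => 1) =
      ENNReal.ofReal (Real.sqrt (2 * Real.pi) ^ Fintype.card (Vtx L) * Z β L) := by
    rw [TN_eq, IA_eq_FS, J10.FS_comp some some_inj, Z_eq]
  have hZ := Z_pos β hβ L
  refine ⟨?_, ?_, ?_⟩
  · rw [h1]
    simp only [ne_eq, ENNReal.ofReal_eq_zero, not_le]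
    positivity
  · rw [h1]
    exact ENNReal.ofReal_ne_top
  · intro i j hij
    rw [h1, TN_eq, netOf_mg, netOf_mg, IA_eq_FS, FS_two _ _ _ _ i j hij, split β hβ L i j]
    have h2 : 0 ≤ (1 - conn β L i j) * Z β L := by
      rw [← split β hβ L i j]
      exact J10.FS_nonneg _ _ _ (fun _ => hβ.le) _ _
    have h3 : 0 ≤ 1 - conn β L i j := nonneg_of_mul_nonneg_left h2 hZ
    rw [← ENNReal.ofReal_mul h3]
    congr 1
    ring

end Pool.Agent.Helper18.AGU
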